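import Pool.Agent.R892.KC.Final

/-!
# Graph isomorphism and formulas in conjunctive normal form of bounded width

Trying all bijections expresses isomorphism of two graphs with `n` vertices as a disjunction of `n!`
formulas in 2-CNF (the formula of a bijection says that corresponding bits are equal). We show that
clauses with at most `k` literals, for any fixed `k`, do not help much: if the isomorphism of two graphs
with `n` vertices is the disjunction of `s` formulas in `k`-CNF over the bits of the two graphs, then
`s ≥ n ^ ((2 / k - o(1)) n)`. Equivalently, encodings of graph isomorphism into `k`-SAT, where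
a `k`-CNF in the bits of the two graphs and in `m` auxiliary variables is satisfiable by values of the
auxiliary variables exactly for isomorphic graphs, need `m ≥ (2 / k - o(1)) n log₂ n` auxiliary
variables. (Reductions of the parity function to graph isomorphism give only the lower bound
`2 ^ (Ω(n / k))` for `s`, and `Ω(n / k)` for `m`.)

Proof. Consider bipartite graphs with `N = n - l` vertices on the left and `l = ⌊log₂ n⌋ + 2`
vertices on the right such that the `N` vertices on the left have different neighbourhoods, and the
pairs of such graphs where the second one arises from the first one by a permutation of the left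
vertices. If one bit of such a pair is changed then the numbers of edges are different, so the graphs
are not isomorphic. So in each of the `s` formulas, restricted to the `2 N l` bits which may be
different from zero, each bit of an accepted pair of the family is determined by `k - 1` other
bits. By the coding argument of Paturi, Pudlak and Zane a formula accepts at most
`2 ^ (2 N l (1 - 1 / k))` pairs of the family, and there are `N! Q (Q - 1) ⋯ (Q - N + 1)` of them, where
`Q = 2 ^ l`.
-/

set_option autoImplicit false

namespace Pool.Agent.Results.MP_128e7d_lc.BoundedWidthCNF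

open Pool.Agent.R892.KC

/-- The variables `(b, e)` are the bits of two graphs on the vertices `0, …, n - 1`, where `b` says which
graph and `e` is an unordered pair of vertices.

1. Let the isomorphism of graphs with `n ≥ 16` vertices be the disjunction of `s` formulas in `k`-CNF,
`k ≥ 1`. Then `n ^ (2 (n - ⌊log₂ n⌋ - 2) / k) ≤ 48 ^ n * s`.

2. For all `k ≥ 1`, `ε > 0` and all large `n`, if the isomorphism of graphs with `n` vertices is the
disjunction of `s` formulas in `k`-CNF then `s ≥ n ^ ((2 / k - ε) n)`.

3. For all `k ≥ 1`, `ε > 0` and all large `n`, if there is a formula in `k`-CNF in the bits of two graphs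
with `n` vertices and in `m` auxiliary variables such that two graphs are isomorphic if and only if
their bits and some values of the auxiliary variables satisfy the formula, then
`m ≥ (2 / k - ε) n log₂ n`. -/
theorem result :
    (∀ k n s : ℕ, 1 ≤ k → 16 ≤ n → ∀ F : Fin s → CNF (Bool × Sym2 (Fin n)),
      (∀ i, (F i).Width k) →
      (∀ G H : SimpleGraph (Fin n), Nonempty (G ≃g H) ↔ ∃ i, (F i).Sat (bitsOf G H)) →
      (n : ℝ) ^ ((2 * (n - (Nat.log 2 n + 2) : ℕ) : ℝ) / k) ≤ 48 ^ n * s) ∧
    (∀ k : ℕ, 1 ≤ k → ∀ ε : ℝ, 0 < ε → ∃ n₀ : ℕ, ∀ n ≥ n₀, ∀ (s : ℕ)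
      (F : Fin s → CNF (Bool × Sym2 (Fin n))), (∀ i, (F i).Width k) →
      (∀ G H : SimpleGraph (Fin n), Nonempty (G ≃g H) ↔ ∃ i, (F i).Sat (bitsOf G H)) →
      (n : ℝ) ^ ((2 / k - ε) * n) ≤ s) ∧
    (∀ k : ℕ, 1 ≤ k → ∀ ε : ℝ, 0 < ε → ∃ n₀ : ℕ, ∀ n ≥ n₀, ∀ (m : ℕ)
      (F : CNF ((Bool × Sym2 (Fin n)) ⊕ Fin m)), F.Width k →
      (∀ G H : SimpleGraph (Fin n), Nonempty (G ≃g H) ↔
        ∃ y : Fin m → Bool, F.Sat (Sum.elim (bitsOf G H) y)) →
      (2 / k - ε) * n * Real.logb 2 n ≤ m) := by
  refine ⟨fun k n s hk hn F hF h => ?_, fun k hk ε hε => ?_, fun k hk ε hε => ?_⟩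
  · have := explicit hk hn F hF h
    rwa [Fintype.card_fin] at this
  · obtain ⟨n₀, h₀⟩ := asym k hk ε hε
    refine ⟨n₀, fun n hn s F hF h => ?_⟩
    have := h₀ n hn (Fin s) F hF h
    rwa [Fintype.card_fin] at this
  · obtain ⟨n₀, h₀⟩ := asym k hk ε hε
    refine ⟨max n₀ 2, fun n hn m F hF h => ?_⟩
    have hn2 : 2 ≤ n := le_trans (le_max_right _ _) hn
    have key := h₀ n (le_trans (le_max_left _ _) hn) (Fin m → Bool) (fun y => F.restrict y)
      (fun y => restrict_width hF y) (fun G H => by
        rw [h G H]
        exact exists_congr fun y => (restrict_sat y _).symm)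
    rw [Fintype.card_fun, Fintype.card_fin, Fintype.card_bool] at key
    push_cast at key
    have hn0 : (0 : ℝ) < n := by exact_mod_cast (show 0 < n by omega)
    have h1 := Real.logb_le_logb_of_le one_lt_two (by positivity) key
    rw [Real.logb_rpow_eq_mul_logb_of_pos hn0, Real.logb_pow, Real.logb_self_eq_one one_lt_two,
      mul_one] at h1
    exact h1

end Pool.Agent.Results.MP_128e7d_lc.BoundedWidthCNF
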