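import Pool.Agent.R892.Half.Red
import Pool.Agent.R892.Half.One

/-!
# Half-integral isomorphisms: an NP-complete relaxation of graph isomorphism

Graphs with adjacency matrices `A` and `B` are isomorphic if and only if `A X = X B` for a
doubly stochastic matrix `X` with integral entries, and this is decided in polynomial time if
arbitrary rational entries are allowed (fractional isomorphism, colour refinement). Here it is
shown that the problem in between, where the entries of `X` have to be in `{0, 1/2, 1}`, is
NP-complete, even for graphs with all degrees at most seven (for which the isomorphism problem is
in P by Luks) for which a solution `X` with entries in `{0, 1/4, 1/2, 3/4, 1}` always exists.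

Proof idea. The reduction is from positive one-in-three satisfiability. For every occurrence of a
variable there is a block of two vertices; the matrix `2 X` restricted to it is `((2-z, z), (z, 2-z))`
with `z` in `{0, 1, 2}`, and the variable is true if `z ≠ 1`. The usual gadget for the equation
`x + y + z = 0` modulo two with four vertices, and the gadget which is untwisted in the one graph
and twisted in the other graph, are both attached to the three blocks of a clause. Together they
have no isomorphism, and their half-integral solutions are exactly those for which exactly one of the
three numbers is different from one.
-/

set_option autoImplicit false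

namespace Pool.Agent.Results.MP_128e7d_lc.HalfIntegralIsomorphism

open Pool.Agent.NPC Pool.Agent.NPC.R671 Pool.Agent.R892.Half

/-- The problem whether two graphs with adjacency matrices `A` and `B` on the same vertex set admit
a doubly stochastic matrix `X` with entries in `{0, 1/2, 1}` and `A X = X B` is NP-complete. Every
language in NP has a polynomial-time many-one reduction to this problem which produces only pairs of
graphs with all degrees at most seven which admit a doubly stochastic matrix `X` with
`A X = X B` all of whose entries are multiples of `1/4`. The problem for multiples of `1/1` is the
graph isomorphism problem. -/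
theorem result :
    InNPP (FracIsoProblem 2) ∧ NPHardP (FracIsoProblem 2) ∧
    (∀ L : Set (List Bool), InNP L → ∃ f : List Bool → List Bool, PolyTime f ∧
      ∀ x, ∃ (n : ℕ) (G H : SimpleGraph (Fin n)), f x = bits (adjMatrix G, adjMatrix H) ∧
        FracIso 4 G H ∧ (∀ v, (G.neighborSet v).ncard ≤ 7 ∧ (H.neighborSet v).ncard ≤ 7) ∧
        (x ∈ L ↔ FracIso 2 G H)) ∧
    ∀ (n : ℕ) (G H : SimpleGraph (Fin n)), FracIso 1 G H ↔ Nonempty (G ≃g H) :=
  ⟨NPC.R892.inNPP_frac (by norm_num), NPC.R892.npHard_half, NPC.R892.hard_half,
    fun _ G H => fracIso_one_iff G H⟩

end Pool.Agent.Results.MP_128e7d_lc.HalfIntegralIsomorphism
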