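import Pool.Agent.R892.Ord.Final

/-!
# Isomorphisms with a prescribed exponent: an NP-complete variant of graph isomorphism

For every fixed `m ≥ 2` it is NP-complete to decide, given two graphs `G` and `H` on the same vertex
set, whether some permutation `π` with `π ^ m = 1` is an isomorphism of `G` to `H` (for `m = 2`:
whether `B = P A P` for the adjacency matrices `A`, `B` and a symmetric permutation matrix `P`).
NP-hardness holds already for pairs of graphs which are isomorphic and whose degrees are bounded
by a constant that depends on `m` only. For graphs of bounded degree the isomorphism problem itself
is in P, and generators of the coset of all isomorphisms can be computed in polynomial time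
(Luks 1982); so the restriction `π ^ m = 1` alone makes the problem NP-complete.

Proof idea. Let `q` be the exact power of a prime `p` in `m`. The vertices are partitioned into
classes which every isomorphism has to preserve (a path with pendant vertices is attached). There
are blocks of `q` vertices on which an isomorphism acts by a shift `s` modulo `q`. For every vertex
of an instance of 3-colourability there are three blocks (one for each colour), and a further
gadget in which `G` and `H` differ enforces that the sum of the three shifts is one, so one of them
is invertible modulo `q`. A gadget for two blocks with shifts `s` and `t`, on which all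
isomorphisms induce elements of the wreath product of two cyclic groups of order `q`, has the
property that the power `π ^ m` cannot be the identity if `s` is invertible and `t ≠ 0`; it connects
the blocks of the same colour of two adjacent vertices.
-/

set_option autoImplicit false

namespace Pool.Agent.Results.MP_128e7d_lc.IsomorphismOfBoundedOrder

open Pool.Agent.NPC Pool.Agent.NPC.R671 Pool.Agent.R892.Ord

/-- For every `m ≥ 2` the problem whether two graphs on the same vertex set have an isomorphism `π`
with `π ^ m = 1` is NP-complete. There is a constant `D` such that every language in NP has a
polynomial-time many-one reduction to this problem which produces only pairs of isomorphic graphs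
with all degrees at most `D`. -/
theorem result (m : ℕ) (hm : 2 ≤ m) :
    InNPP (IsoWithPowerOne m) ∧ NPHardP (IsoWithPowerOne m) ∧
    ∃ D : ℕ, ∀ L : Set (List Bool), InNP L → ∃ f : List Bool → List Bool, PolyTime f ∧
      ∀ x, ∃ (n : ℕ) (G H : SimpleGraph (Fin n)), f x = bits (adjMatrix G, adjMatrix H) ∧
        Nonempty (G ≃g H) ∧ (∀ v, (G.neighborSet v).ncard ≤ D ∧ (H.neighborSet v).ncard ≤ D) ∧
        (x ∈ L ↔ ∃ π : Equiv.Perm (Fin n), π ^ m = 1 ∧ ∀ u v, G.Adj u v ↔ H.Adj (π u) (π v)) :=
  ⟨NPC.R892.inNPP_iso (by omega), NPC.R892.npHard_iso m hm, NPC.R892.hard_main m hm⟩

end Pool.Agent.Results.MP_128e7d_lc.IsomorphismOfBoundedOrder
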