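import Pool.Agent.R532.TourPad

/-!
# Algebraic proofs of non-isomorphism of tournaments need linear degree

For all `d ≥ 1` and `n ≥ 10 ^ 18 d` there are two non-isomorphic tournaments with `n` vertices such
that the system of polynomial equations for their isomorphisms has no refutation of degree `d`

* in the polynomial calculus, over any field whatsoever (also of characteristic two, three, five),
* in the Positivstellensatz calculus over the reals (so also no sum-of-squares refutation).

One pair of tournaments is hard for all fields at the same time. For tournaments no involutions are
available, so that the usual constructions with the group of order two cannot be used; here groups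
of order three and of order five are used side by side (starting library `Pool/Agent/TH658/Dg`), and
sources are added to reach every number of vertices.

Definitions used in the statement: `IsoAxiom` (`Pool/Agent/TH658/Dg/Defs.lean`: the equations
`x ^ 2 = x`, row and column sums equal to one, products zero for pairs that violate equality or the
relation), `PCDerives`, `PCRefutes`, `PosRefutes` (`Pool/Agent/TH658/Dg/PcDefs.lean`), `IsTournament`
(`Pool/Agent/TH658/Dg/Tour.lean`).
-/

set_option autoImplicit false

namespace Pool.Agent.Results.MP_128e7d_lc.TournamentAlgebraicProofs

open Pool.Agent.TH658.Dg

theorem result (n d : ℕ) (hd : 1 ≤ d) (hn : 10 ^ 18 * d ≤ n) :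
    ∃ (V : Type) (_ : Fintype V) (T T' : V → V → Prop),
      Fintype.card V = n ∧ IsTournament T ∧ IsTournament T' ∧
      (¬ ∃ φ : V ≃ V, ∀ x y, T x y ↔ T' (φ x) (φ y)) ∧
      (∀ (K : Type) [Field K], ¬ PCRefutes K T T' d) ∧ ¬ PosRefutes T T' d :=
  Pool.Agent.R532.TourPad.hard hd hn

end Pool.Agent.Results.MP_128e7d_lc.TournamentAlgebraicProofs
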